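import Pool.Agent.Helper12.CX.Defs

set_option autoImplicit false
noncomputable section
namespace Pool.Agent.Helper6.MONO

open Polynomial

/-- `z` times the Gram data -/
def lau_wP (c : Fin 3 → ℝ) : Fin 3 → Fin 3 → ℝ[X] :=
  !![0, C (c 0) * X, C (c 2); C (c 0) * X, 0, C (c 1) * X; C (c 2) * X ^ 2, C (c 1) * X, 0]

theorem lau_wP_eq (c : Fin 3 → ℝ) (z : ℂ) (hz : z ≠ 0) (i j : Fin 3) :
    aeval z (lau_wP c i j) = z * wG c z i j := by
  fin_cases i <;> fin_cases j <;> simp [lau_wP, wG] <;> field_simp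

/-- one step -/
def lau_step (c : Fin 3 → ℝ) (i : Fin 3) (F : Fin 3 → ℝ[X]) : Fin 3 → ℝ[X] :=
  fun k => if k = i then -(X * F i) + ∑ j, (if j = i then 0 else lau_wP c j i * F j) else X * F k

theorem lau_fire (c : Fin 3 → ℝ) (i : Fin 3) (F : Fin 3 → ℝ[X]) (z : ℂ) (hz : z ≠ 0) (k : ℕ)
    (x : V3) (h : z ^ k • x = evv F z) :
    z ^ (k + 1) • fire (wG c z) i x = evv (lau_step c i F) z := by
  have hj : ∀ j, z ^ k * x j = aeval z (F j) := fun j => congrFun h j
  ext n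
  show z ^ (k + 1) * fire (wG c z) i x n = aeval z (lau_step c i F n)
  unfold fire lau_step
  split_ifs with hn
  · rw [map_add, map_neg, map_mul, map_sum, aeval_X, mul_add, Finset.mul_sum]
    congr 1
    · rw [← hj]; ring
    · refine Finset.sum_congr rfl fun j _ => ?_
      split_ifs with hji
      · simp
      · rw [map_mul, lau_wP_eq c z hz, ← hj]; ring
  · rw [map_mul, aeval_X, ← hj]; ring

theorem lau_gen (c : Fin 3 → ℝ) (w : List (Fin 3)) : ∀ (k : ℕ) (F : Fin 3 → ℝ[X]) (x : ℂ → V3),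
    (∀ z : ℂ, z ≠ 0 → z ^ k • x z = evv F z) →
    ∃ (K : ℕ) (F' : Fin 3 → ℝ[X]), ∀ z : ℂ, z ≠ 0 → z ^ K • gact (wG c z) w (x z) = evv F' z := by
  induction w with
  | nil => intro k F x h; exact ⟨k, F, h⟩
  | cons i w ih =>
    intro k F x h
    obtain ⟨K, F', hF⟩ := ih (k + 1) (lau_step c i F) (fun z => fire (wG c z) i (x z))
      (fun z hz => lau_fire c i F z hz k (x z) (h z hz))
    exact ⟨K, F', hF⟩

theorem st_LAU : ST_LAU := by
  intro c F w j
  obtain ⟨K, F', h⟩ := lau_gen c w 0 F (fun z => evv F z) (fun z _ => by simp)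
  exact ⟨K, F' j, fun z hz => congrFun (h z hz) j⟩

end Pool.Agent.Helper6.MONO
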