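import Pool.Agent.Helper12.CX.Defs

set_option autoImplicit false
noncomputable section
namespace Pool.Agent.Helper6.MONO

open Polynomial

/-- `z ^ k + z ^ (-k)` as a polynomial in `z + 1/z` -/
def sym_D : ℕ → ℝ[X]
  | 0 => C 2
  | 1 => X
  | k + 2 => X * sym_D (k + 1) - sym_D k

theorem sym_D_eq (z : ℂ) (hz : z ≠ 0) : ∀ k : ℕ,
    aeval (z + z⁻¹) (sym_D k) = z ^ k + z⁻¹ ^ k ∧
    aeval (z + z⁻¹) (sym_D (k + 1)) = z ^ (k + 1) + z⁻¹ ^ (k + 1) := by
  intro k
  induction k with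
  | zero => constructor <;> simp [sym_D]; norm_num
  | succ k ih =>
    refine ⟨ih.2, ?_⟩
    rw [sym_D, map_sub, map_mul, aeval_X, ih.1, ih.2]
    have : z * z⁻¹ = 1 := mul_inv_cancel₀ hz
    linear_combination (z ^ k + z⁻¹ ^ k) * this

/-- the symmetric pairing of `P` and `Q` is a polynomial in `z + 1/z` -/
def sym_S (P Q : ℝ[X]) : Prop := ∃ T : ℝ[X], ∀ z : ℂ, z ≠ 0 →
  aeval (z + z⁻¹) T = aeval z P * aeval z⁻¹ Q + aeval z Q * aeval z⁻¹ P

theorem sym_mono (m n : ℕ) (a b : ℝ) : sym_S (C a * X ^ m) (C b * X ^ n) := by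
  rcases le_total m n with h | h
  · obtain ⟨k, rfl⟩ := Nat.exists_eq_add_of_le h
    refine ⟨C (a * b) * sym_D k, fun z hz => ?_⟩
    have h1 : z ^ m * z⁻¹ ^ m = 1 := by rw [← mul_pow, mul_inv_cancel₀ hz, one_pow]
    rw [map_mul, (sym_D_eq z hz k).1]
    simp only [map_mul, map_pow, aeval_X, aeval_C, pow_add]
    linear_combination (algebraMap ℝ ℂ a * algebraMap ℝ ℂ b * (-(z ^ k) - z⁻¹ ^ k)) * h1
  · obtain ⟨k, rfl⟩ := Nat.exists_eq_add_of_le h
    refine ⟨C (a * b) * sym_D k, fun z hz => ?_⟩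
    have h1 : z ^ n * z⁻¹ ^ n = 1 := by rw [← mul_pow, mul_inv_cancel₀ hz, one_pow]
    rw [map_mul, (sym_D_eq z hz k).1]
    simp only [map_mul, map_pow, aeval_X, aeval_C, pow_add]
    linear_combination (algebraMap ℝ ℂ a * algebraMap ℝ ℂ b * (-(z ^ k) - z⁻¹ ^ k)) * h1

theorem sym_all (P Q : ℝ[X]) : sym_S P Q := by
  induction P using Polynomial.induction_on' with
  | add p q hp hq =>
    obtain ⟨T, hT⟩ := hp
    obtain ⟨U, hU⟩ := hq
    refine ⟨T + U, fun z hz => ?_⟩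
    rw [map_add, map_add, map_add, hT z hz, hU z hz]; ring
  | monomial m a =>
    induction Q using Polynomial.induction_on' with
    | add p q hp hq =>
      obtain ⟨T, hT⟩ := hp
      obtain ⟨U, hU⟩ := hq
      refine ⟨T + U, fun z hz => ?_⟩
      rw [map_add, map_add, map_add, hT z hz, hU z hz]; ring
    | monomial n b =>
      rw [← C_mul_X_pow_eq_monomial, ← C_mul_X_pow_eq_monomial]
      exact sym_mono m n a b

theorem st_SYM : ST_SYM := by
  intro P
  obtain ⟨T, hT⟩ := sym_all P P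
  refine ⟨C (1 / 2) * T, fun z hz => ?_⟩
  rw [map_mul, hT z hz, aeval_C]
  have : (algebraMap ℝ ℂ) (1 / 2) = 1 / 2 := by norm_num
  rw [this]; ring

end Pool.Agent.Helper6.MONO
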