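import Pool.Agent.Helper12.CX.Defs

set_option autoImplicit false
noncomputable section
namespace Pool.Agent.Helper6.MONO

open Polynomial

theorem mon_ex (x : ℂ) : ∃ z : ℂ, z ≠ 0 ∧ z + z⁻¹ = x := by
  obtain ⟨z, hz⟩ := IsAlgClosed.exists_root (X ^ 2 - C x * X + 1 : ℂ[X]) (by
    have : (X ^ 2 - C x * X + 1 : ℂ[X]).degree = 2 := by
      compute_degree!
    rw [this]; norm_num)
  have h1 : z ^ 2 - x * z + 1 = 0 := by simpa using hz
  have hz0 : z ≠ 0 := by
    rintro rfl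
    simp at h1
  refine ⟨z, hz0, ?_⟩
  field_simp
  linear_combination h1

theorem mon_conj (P : ℝ[X]) (z : ℂ) : aeval ((starRingEnd ℂ) z) P = (starRingEnd ℂ) (aeval z P) :=
  aeval_conj P z

theorem st_MON : ST_MON' := by
  intro hL hS hR c F w j x0 hE z z' hz hz' hx hzz
  obtain ⟨k, P, hP⟩ := hL c F w j
  obtain ⟨T, hT⟩ := hS P
  set E : ℂ → ℂ := fun z => gact (wG c z) w (evv F z) j with hEd
  have hE' : ∀ z, InX x0 z → E z ≠ 0 := hE
  have hP' : ∀ z : ℂ, z ≠ 0 → z ^ k * E z = aeval z P := hP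
  -- `T` has no zeros in the half plane
  have hT0 : ∀ x : ℂ, x0 < x.re → aeval x T ≠ 0 := by
    intro x hx
    obtain ⟨z, hz0, rfl⟩ := mon_ex x
    have hz1 : z⁻¹ ≠ 0 := inv_ne_zero hz0
    rw [hT z hz0, ← hP' z hz0, ← hP' _ hz1]
    have i1 : InX x0 z := ⟨hz0, hx⟩
    have i2 : InX x0 z⁻¹ := ⟨hz1, by rw [inv_inv, add_comm]; exact hx⟩
    exact mul_ne_zero (mul_ne_zero (pow_ne_zero _ hz0) (hE' _ i1))
      (mul_ne_zero (pow_ne_zero _ hz1) (hE' _ i2))
  -- the absolute value on the unit circle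
  have key : ∀ z : ℂ, ‖z‖ = 1 → |T.eval (2 * z.re)| = ‖E z‖ ^ 2 := by
    intro z hz
    have hz0 : z ≠ 0 := by
      rintro rfl
      simp at hz
    have hinv : z⁻¹ = (starRingEnd ℂ) z := by
      rw [Complex.inv_def, Complex.normSq_eq_norm_sq, hz]; simp
    have hsum : z + z⁻¹ = ((2 * z.re : ℝ) : ℂ) := by
      rw [hinv, Complex.add_conj]
    have h1 : (aeval (((2 * z.re : ℝ) : ℂ)) T : ℂ) = ((T.eval (2 * z.re) : ℝ) : ℂ) := by
      have := Polynomial.aeval_algebraMap_apply ℂ (2 * z.re) T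
      rw [show (((2 * z.re : ℝ)) : ℂ) = algebraMap ℝ ℂ (2 * z.re) from rfl, this]
      rfl
    have h2 := hT z hz0
    rw [hsum, h1, hinv, mon_conj, ← hP' z hz0] at h2
    have h3 := congrArg norm h2
    rw [Complex.norm_real, Real.norm_eq_abs, norm_mul, RCLike.norm_conj, norm_mul, norm_pow, hz,
      one_pow, one_mul] at h3
    rw [h3]; ring
  have h1 := key z hz
  have h2 := key z' hz'
  have h3 := hR x0 T hT0 (2 * z.re) (2 * z'.re) hx (by linarith)
  rw [h1, h2] at h3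
  exact le_of_sq_le_sq h3 (norm_nonneg _)

end Pool.Agent.Helper6.MONO
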