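import Pool.Agent.Helper12.CX.Defs

set_option autoImplicit false
noncomputable section
namespace Pool.Agent.Helper6.MONO

open Polynomial

theorem r3x_prod (x0 x x' : ℝ) (hx : x0 ≤ x) (hxx : x ≤ x') (R : Multiset ℂ) :
    (∀ ρ ∈ R, ρ.re ≤ x0) →
    (R.map (fun ρ => ‖(x : ℂ) - ρ‖)).prod ≤ (R.map (fun ρ => ‖(x' : ℂ) - ρ‖)).prod := by
  induction R using Multiset.induction_on with
  | empty => intro _; simp
  | cons ρ R ih =>
    intro h
    rw [Multiset.map_cons, Multiset.map_cons, Multiset.prod_cons, Multiset.prod_cons]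
    refine mul_le_mul ?_ (ih fun y hy => h y (Multiset.mem_cons_of_mem hy)) ?_ (norm_nonneg _)
    · have h1 := h ρ (Multiset.mem_cons_self ρ R)
      rw [← Real.sqrt_sq (norm_nonneg _), ← Real.sqrt_sq (norm_nonneg ((x' : ℂ) - ρ))]
      refine Real.sqrt_le_sqrt ?_
      rw [← Complex.normSq_eq_norm_sq, ← Complex.normSq_eq_norm_sq, Complex.normSq_apply,
        Complex.normSq_apply]
      simp only [Complex.sub_re, Complex.sub_im, Complex.ofReal_re, Complex.ofReal_im]
      nlinarith
    · refine Multiset.prod_nonneg ?_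
      intro y hy
      obtain ⟨y', _, rfl⟩ := Multiset.mem_map.1 hy
      exact norm_nonneg _

theorem st_R3X : ST_R3X := by
  intro x0 T hT x x' hx hxx
  set Q := T.map (algebraMap ℝ ℂ) with hQ
  have hsp : Q.Splits := IsAlgClosed.splits _
  have h2 : ∀ t : ℝ, |T.eval t| = ‖Q.leadingCoeff‖ *
      (Q.roots.map (fun ρ => ‖(t : ℂ) - ρ‖)).prod := by
    intro t
    have e1 : Q.eval (t : ℂ) = ((T.eval t : ℝ) : ℂ) := by
      rw [hQ, eval_map_algebraMap]
      have := Polynomial.aeval_algebraMap_apply ℂ t T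
      rw [show ((t : ℝ) : ℂ) = algebraMap ℝ ℂ t from rfl, this]
      rfl
    have e2 : |T.eval t| = ‖Q.eval (t : ℂ)‖ := by
      rw [e1, Complex.norm_real, Real.norm_eq_abs]
    rw [e2, hsp.eval_eq_prod_roots, norm_mul]
    congr 1
    generalize Q.roots = R
    induction R using Multiset.induction_on with
    | empty => simp
    | cons ρ R ih => simp [ih]
  rw [h2, h2]
  refine mul_le_mul_of_nonneg_left (r3x_prod x0 x x' hx hxx _ ?_) (norm_nonneg _)
  intro ρ hρ
  by_contra hc
  push Not at hc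
  refine hT ρ hc ?_
  have := (mem_roots'.1 hρ).2
  rw [IsRoot.def, hQ, eval_map_algebraMap] at this
  exact this

end Pool.Agent.Helper6.MONO
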